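import Pool.Agent.Helper85.ST.K
import Pool.Agent.Helper8.CO.Eqv

/-!
# Almost all integers have the same height as all their neighbours

`T n = n / 2` if `n` is even, `T n = (3 n - ρ) / 2` if `n` is odd (`ρ` odd; `ρ = -1` is the `3x + 1` map). For a set `F` of integers which is bounded above the height of `n` is
the first time `s` with `T^[s] n ∈ F` (`F = {1}`: the total stopping time; `F = (-∞, B]`: the time at which the orbit goes `≤ B`).

**Theorem.** Let `c < 1 / 2`. For almost all `n` (natural density `1`) all the integers `k ≡ n (mod ρ)` with `|k - n| ≤ exp ((log n) ^ c)` have the height of `n`, or all of them and `n` have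
no height. In particular for almost all `n` all the integers `k` with `|k - n| ≤ exp ((log n) ^ c)` reach `1` under the `3x + 1` map after the same number of steps, or none of them reaches `1`.

Proof (`Helper8/CO`, `Helper85/ST/K`). The orbits of `n` and of all these `k` are at the same point after `κ log n` steps, for almost all `n`. The particles are the pairs (number of odd steps,
point of the orbit); the clouds of particles of a random `n` coalesce; for the pair chain the logarithm of the difference is a random walk without drift, and the events that two particles which are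
near do not meet is controlled by the estimate for the random walk which stays positive (Lyapunov function, `Ly`).
-/

set_option autoImplicit false

namespace Pool.Agent.Helper85.FIN.Heights

open Pool.Agent.Helper68.Moeller Filter Topology

/-- The natural density (in the positive integers). -/
def HasDensity (A : Set ℤ) (D : ℝ) : Prop :=
  Tendsto (fun x : ℝ => ({n : ℤ | n ∈ A ∧ 0 < n ∧ (n : ℝ) ≤ x}.ncard : ℝ) / x) atTop (𝓝 D)

/-- `s` is the height of `n`: the first time at which the orbit of `n` is in `F`. -/
def Height (r : ℤ → ℤ) (F : Set ℤ) (s : ℕ) (n : ℤ) : Prop :=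
  (T 2 3 r)^[s] n ∈ F ∧ ∀ i < s, (T 2 3 r)^[i] n ∉ F

/-- **Almost all integers have the same height as all their neighbours.** -/
theorem result (r : ℤ → ℤ) (hr : Admissible 2 3 r) (F : Set ℤ) (B : ℝ) (hF : ∀ a ∈ F, (a : ℝ) ≤ B)
    (c : ℝ) (hc : c < 1 / 2) :
    HasDensity {n : ℤ | ∀ k : ℤ, r 1 ∣ k - n → |(k : ℝ) - n| ≤ Real.exp (Real.log n ^ c) →
      ∀ s : ℕ, Height r F s k ↔ Height r F s n} 1 := by
  have hρ : Odd (r 1) := Pool.Agent.Helper8.CO.odd_of_adm hr
  have h := Pool.Agent.Helper85.ST.heights hρ hc (F := F) (le_max_right B 0) fun a ha => (hF a ha).trans (le_max_left B 0)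
  have e : {n : ℤ | ∀ k : ℤ, r 1 ∣ k - n → |(k : ℝ) - n| ≤ Real.exp (Real.log n ^ c) →
      ∀ s : ℕ, Height r F s k ↔ Height r F s n} =
      {n : ℤ | ∀ h : ℤ, r 1 ∣ h → |(h : ℝ)| ≤ Real.exp (Real.log n ^ c) →
      ∀ t : ℕ, Pool.Agent.Helper85.ST.First (r 1) F t (n + h) ↔ Pool.Agent.Helper85.ST.First (r 1) F t n} := by
    ext n
    simp only [Set.mem_ofPred_eq, Height, Pool.Agent.Helper85.ST.First, Pool.Agent.Helper8.CO.T_eq (r := r)]
    constructor
    · intro h1 h hd hle
      exact h1 (n + h) (by rwa [add_sub_cancel_left]) (by push_cast; rwa [add_sub_cancel_left])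
    · intro h1 k hd hle
      have h2 := h1 (k - n) hd (by push_cast; exact hle)
      rwa [add_sub_cancel] at h2
  unfold HasDensity
  rw [e]
  exact h

end Pool.Agent.Helper85.FIN.Heights
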