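import Pool.Agent.Helper8.LQ.All
import Pool.Agent.Helper85.LQ.App2

/-!
# Level of distribution of the invariant sets

`T n = n / d` if `d ∣ n`, `T n = (m n - r_j) / d` if `n ≡ j (mod d)`, `1 ≤ j ≤ d - 1`, as in the problem file; `2 ≤ d < m ≤ d ^ (d / (d - 1))` are coprime, `R` is admissible.
A set `G` of integers is invariant if `n ∈ G ↔ T n ∈ G` for all `n > 0`: unions of basins, the integers whose orbit stays above `B` up to an equivalence, the integers which reach `1`.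
Let `g` be the greatest common divisor of `r_1 (d - 1)` and of all `r_j - r_1`.

**Theorem.** There is `θ > 0` such that every invariant `G` has a natural density `D` and, uniformly in `G`, for all `N ≤ x ^ θ` without prime factors which divide `g` but not `d m`,
every residue class modulo `N` contains `(D + o(1)) x / N` elements of `G ∩ [x, 2x)`.

The condition on `N` is necessary in general: if a prime `p` divides all `r_j` then the multiples of `p` are an invariant set.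

Proof. `Helper8/LQ`. `Gsb`, `One`, `FDq`: decay of the exponential sums of the end points of the words of the parity vectors at the fractions with denominator `q m ^ N`, `q ≤ exp (κ N)` coprime to `d g`
(the geometry of the black triangles of Tao, for general phases, and an iteration in the exponent); `MIXq`: hence the distribution of the end points modulo `q m ^ (S + k)` is close to the lift of
the distribution modulo `m ^ S`; `CFq`: the integers of a class modulo `q m ^ k` are sent by `T^[t]` to every set in the same proportion; `LDq`, `All`: all moduli. The existence of `D` is from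
`PositiveDensity`.
-/

set_option autoImplicit false

namespace Pool.Agent.Helper85.FIN.LevelOfDistribution

open Pool.Agent.Helper68.Moeller Pool.Agent.Helper8 Pool.Agent.Helper28 Pool.Agent.Helper8.LQ
  Pool.Agent.Helper8.ND Pool.Agent.Helper91 Pool.Agent.Helper85.LQ Filter Topology
open Pool.Agent.Helper8.PW (fdc)

/-- The natural density (in the positive integers). -/
def HasDensity (A : Set ℤ) (D : ℝ) : Prop :=
  Tendsto (fun x : ℝ => ({n : ℤ | n ∈ A ∧ 0 < n ∧ (n : ℝ) ≤ x}.ncard : ℝ) / x) atTop (𝓝 D)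

/-- `G` is invariant under `T`, in the positive integers. -/
def Inv (d m : ℕ) (r : ℤ → ℤ) (G : Set ℤ) : Prop := ∀ n : ℤ, 0 < n → (n ∈ G ↔ T d m r n ∈ G)

/-- `p` divides `g`, that is, `p` divides `r_1 (d - 1)` and all `r_j - r_1`. -/
def DivG (d : ℕ) (r : ℤ → ℤ) (p : ℕ) : Prop :=
  (p : ℤ) ∣ r 1 * ((d : ℤ) - 1) ∧ ∀ j : ℤ, 0 < j → j < (d : ℤ) → (p : ℤ) ∣ r j - r 1

/-- The moduli: every prime factor divides `d m` or does not divide `g`. -/
def Modulus (d m : ℕ) (r : ℤ → ℤ) (N : ℕ) : Prop := 0 < N ∧ ∀ p : ℕ, p.Prime → p ∣ N → p ∣ d * m ∨ ¬ DivG d r p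

/-- **Level of distribution of the invariant sets.** -/
theorem result (d m : ℕ) (hd : 2 ≤ d) (hdm : d < m) (hco : Nat.Coprime m d)
    (hw : (m : ℝ) ≤ (d : ℝ) ^ ((d : ℝ) / ((d : ℝ) - 1))) (r : ℤ → ℤ) (hr : Admissible d m r) :
    ∃ θ : ℝ, 0 < θ ∧ ∀ ε : ℝ, 0 < ε → ∃ X : ℝ, ∀ G : Set ℤ, Inv d m r G → ∃ D : ℝ, HasDensity G D ∧
      ∀ x : ℝ, X ≤ x → ∀ N : ℕ, Modulus d m r N → (N : ℝ) ≤ x ^ θ → ∀ b : ℤ,
        |({n : ℤ | x ≤ n ∧ (n : ℝ) < 2 * x ∧ n ∈ G ∧ n ≡ b [ZMOD N]}.ncard : ℝ) - D * x / N| ≤ ε * x / N := by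
  have h : POSB.Std d m r := ⟨hd, hdm, hco, hw, hr⟩
  obtain ⟨θ, hθ, hl⟩ := level_allD h (levelF_of h)
  refine ⟨θ, hθ, fun ε hε => ?_⟩
  obtain ⟨X, hX1, hX⟩ := hl 0 ε hε
  refine ⟨X, fun G hG => ?_⟩
  have hG' : POSB.Inv d m r G := hG
  refine ⟨PL.dens G, POSB.tendsto_dens h hG'.tinv, fun x hx N hN hNx b => ?_⟩
  have h1 := (hX G hG'.tinv x hx).2 N hN hNx b
  have hx0 : 0 < x := by linarith
  have hN0 : (0 : ℝ) < N := by exact_mod_cast hN.1
  have hset : {n : ℤ | x ≤ n ∧ (n : ℝ) < 2 * x ∧ n ∈ G ∧ n ≡ b [ZMOD N]} =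
      {n : ℤ | x ≤ n ∧ (n : ℝ) < 2 * x ∧ (N : ℤ) ∣ n - b ∧ n ∈ G} := by
    ext n
    simp only [Set.mem_ofPred_eq]
    have : n ≡ b [ZMOD (N : ℤ)] ↔ (N : ℤ) ∣ n - b :=
      ⟨fun h => h.symm.dvd, fun h => (Int.modEq_iff_dvd.2 h).symm⟩
    rw [this]
    tauto
  rw [hset]
  unfold fdc at h1
  obtain ⟨c, hc⟩ : ∃ c : ℝ, c = ({n : ℤ | x ≤ n ∧ (n : ℝ) < 2 * x ∧ (N : ℤ) ∣ n - b ∧ n ∈ G}.ncard : ℝ) := ⟨_, rfl⟩
  rw [← hc] at h1 ⊢
  have e : c - PL.dens G * x / N = (c * N / x - PL.dens G) * (x / N) := by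
    field_simp
  rw [e, abs_mul, abs_of_pos (div_pos hx0 hN0)]
  calc |c * N / x - PL.dens G| * (x / N) ≤ ε * (x / N) := mul_le_mul_of_nonneg_right h1 (div_pos hx0 hN0).le
    _ = ε * x / N := by ring

end Pool.Agent.Helper85.FIN.LevelOfDistribution
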