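import Pool.Agent.Helper8.PW.Fin2
import Pool.Agent.Helper8.PW.LD
import Pool.Agent.Helper8.PW.CF
import Pool.Agent.Helper8.PW.MIXa
import Pool.Agent.Helper85.PW.S9

/-!
# The `3x + 1` problem in intervals of length `n ^ δ`

`T n = n / 2` if `n` is even, `T n = (3 n - ρ) / 2` if `n` is odd (`ρ` odd; `ρ = -1` is the `3x + 1` map). The window of `n` consists of the integers `n + h`, `0 ≤ h ≤ n ^ δ`, `ρ ∣ h`.
A set `G` of integers is invariant if `n ∈ G ↔ T n ∈ G` for all `n > 0`.

**Theorem.** For every `ε > 0` there is `δ > 0` with the following property. If `G` is invariant and has a positive natural density then for all large `x` and at least `x ^ (1 - ε)`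
of the `n ∈ [x, 2x)` the whole window of `n` is contained in `G`, and all its integers are sent to one and the same point by `T^[t]`, for some `t ≤ ε log x / log 2`.
Hence
* the exceptional set `E(2, 3, R)` is finite if and only if for some `B` the window of every large `n` contains an integer whose orbit goes `≤ B`;
* for the `3x + 1` map: for all large `x` at least `x ^ (1 - ε)` of the intervals `[n, n + n ^ δ]`, `n ∈ [x, 2x)`, consist of integers which reach `1` after one and the same number of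
  steps; and all positive integers reach `1` if and only if every such interval, `n` large, contains an integer which reaches `1`.

Proof. Level of distribution of the invariant sets in the residue classes modulo `2 ^ i 3 ^ j` (`Helper8/PW`): `FDs`, `MIXs`, `MIXa`: Tao's estimate for the distribution of the end points
of the words modulo `3 ^ N`, here for words with fewer than `N` non-zero digits; `CF`: the integers of a class modulo `3 ^ k` are sent by `T^[t]`, `k ≤ κ t`, to every set in the same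
proportion; `LD`.
Windows (`Helper85/PW`): there is `K` such that for all large `t` some class `a` modulo `2 ^ (K t)` has the property that the orbits of all `a + ρ j`, `j ≤ exp (t / K)`,
merge in `K t` steps (`sw`). The particles of a window are the pairs (number of odd steps, point of the orbit). After `t + t` suitable digits of the base point there
are at most `C t ^ (3 / 5)` particles (`S8`, as in `Helper8/CO`). The further digits are chosen one after the other such that a potential decreases: it is the sum of a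
smooth maximum of `X (st p p₀)`, where `p₀` is a particle of the highest level and `X` is a potential of the pair chain with the drift of a bias (`Helper8/PW/X`), of a
multiple of the number of the particles, and of a small multiple of the sum of the differences (`S4`, `S5`, `S9`).
`Fin`, `Fin2`: the class `a` contains elements of `G` by the level of distribution, and then `G` contains their windows. The equivalences use that the sets of the
integers whose orbit is above `B`, and which do not reach `1`, are null sets only if they are trivial (`PositiveDensity`).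
-/

set_option autoImplicit false

namespace Pool.Agent.Helper85.FIN.PowerIntervals

open Pool.Agent.Helper68.Moeller Pool.Agent.Helper8 Pool.Agent.Helper28 Pool.Agent.Helper8.PW
  Pool.Agent.Helper8.ND Pool.Agent.Helper91 Filter Topology

/-- The natural density (in the positive integers). -/
def HasDensity (A : Set ℤ) (D : ℝ) : Prop :=
  Tendsto (fun x : ℝ => ({n : ℤ | n ∈ A ∧ 0 < n ∧ (n : ℝ) ≤ x}.ncard : ℝ) / x) atTop (𝓝 D)

/-- `G` is invariant under `T`, in the positive integers. -/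
def Inv (r : ℤ → ℤ) (G : Set ℤ) : Prop := ∀ n : ℤ, 0 < n → (n ∈ G ↔ T 2 3 r n ∈ G)

/-- The window of `n`: the integers `n + h`, `0 ≤ h ≤ n ^ δ`, `ρ ∣ h`. -/
def W (ρ : ℤ) (δ : ℝ) (n : ℤ) : Set ℤ := {k : ℤ | ∃ h : ℤ, k = n + h ∧ 0 ≤ h ∧ (h : ℝ) ≤ (n : ℝ) ^ δ ∧ ρ ∣ h}

/-- The number of the `n ∈ [x, 2x)` with the property `P`. -/
noncomputable def num (P : ℤ → Prop) (x : ℝ) : ℝ := ({n : ℤ | x ≤ n ∧ (n : ℝ) < 2 * x ∧ P n}.ncard : ℝ)

/-- The map `(3x + 1) / 2`, `x / 2`. -/
def T3 : ℤ → ℤ := T 2 3 (fun _ => -1)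

/-- **Windows of length `n ^ δ`.** -/
theorem result :
    -- the `3x + 1` map, the intervals `[n, n + n ^ δ]`
    (∀ ε : ℝ, 0 < ε → ∃ δ : ℝ, 0 < δ ∧
      (∃ X : ℝ, ∀ x : ℝ, X ≤ x →
        x ^ (1 - ε) ≤ num (fun n => ∃ s : ℕ, ∀ k ∈ W 1 δ n, T3^[s] k = 1 ∧ ∀ i < s, T3^[i] k ≠ 1) x) ∧
      ((∀ n : ℤ, 0 < n → ∃ t : ℕ, T3^[t] n = 1) ↔
        ∃ N : ℝ, ∀ n : ℤ, N ≤ n → ∃ k ∈ W 1 δ n, ∃ t : ℕ, T3^[t] k = 1)) ∧
    -- the maps with `d = 2`, `m = 3`, the windows `n + h`, `0 ≤ h ≤ n ^ δ`, `r 1 ∣ h`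
    (∀ r : ℤ → ℤ, Admissible 2 3 r → ∀ ε : ℝ, 0 < ε → ∃ δ : ℝ, 0 < δ ∧
      (∀ (G : Set ℤ) (D : ℝ), Inv r G → HasDensity G D → 0 < D → ∃ X : ℝ, ∀ x : ℝ, X ≤ x →
        x ^ (1 - ε) ≤ num (fun n => ∃ t : ℕ, (2 : ℝ) ^ t ≤ x ^ ε ∧
          ∀ k ∈ W (r 1) δ n, k ∈ G ∧ (T 2 3 r)^[t] k = (T 2 3 r)^[t] n) x) ∧
      ((E 2 3 r).Finite ↔
        ∃ B N : ℝ, ∀ n : ℤ, N ≤ n → ∃ k ∈ W (r 1) δ n, ∃ t : ℕ, ((T 2 3 r)^[t] k : ℝ) ≤ B)) := by
  have hLD : ∀ (d m : ℕ) (r : ℤ → ℤ), POSB.Std d m r → LevelD d m r := fun d m r h =>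
    levelD h (class_flow h.hd h.hdm h.hco h.hr (mixS_std h))
  have hSW : ∀ ρ : ℤ, Odd ρ → SW ρ := fun ρ h => Pool.Agent.Helper85.PW.sw h
  refine ⟨?_, ?_⟩
  · intro ε hε
    have hl : LevelD 2 3 (fun _ => (-1 : ℤ)) := hLD 2 3 _ POSB.std_three
    obtain ⟨δ, hδ, h⟩ := three_p (swr (by decide) (hSW (-1) (by decide))) hl hε
    obtain ⟨⟨X, hX⟩, h2, -⟩ := h δ le_rfl
    refine ⟨δ, hδ, ⟨X, fun x hx => ?_⟩, ?_⟩
    · refine (hX x hx).trans (le_of_eq ?_)
      unfold num
      congr 2
      ext n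
      refine and_congr_right fun _ => and_congr_right fun _ => exists_congr fun s => ?_
      constructor
      · rintro h3 k ⟨h, rfl, hh, hle, -⟩
        exact h3 h hh hle
      · intro h3 h hh hle
        exact h3 (n + h) ⟨h, rfl, hh, hle, one_dvd h⟩
    · refine h2.trans (exists_congr fun N => forall_congr' fun n => imp_congr_right fun _ => ?_)
      constructor
      · rintro ⟨h, t, hh, hle, ht⟩
        exact ⟨n + h, ⟨h, rfl, hh, hle, one_dvd h⟩, t, ht⟩
      · rintro ⟨k, ⟨h, rfl, hh, hle, -⟩, t, ht⟩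
        exact ⟨h, t, hh, hle, ht⟩
  · intro r hr ε hε
    have hρ : Odd (r 1) := CO.odd_of_adm hr
    have hstd : POSB.Std 2 3 r := ⟨le_refl 2, by norm_num, by norm_num, POS.three_hyp.1, hr⟩
    have hl : LevelD 2 3 (fun _ => r 1) := by
      refine hLD 2 3 _ ⟨le_refl 2, by norm_num, by norm_num, POS.three_hyp.1, ?_⟩
      intro j hj hj2
      have : j = 1 := by
        push_cast at hj2
        omega
      subst this
      exact hr 1 hj hj2
    obtain ⟨δ, hδ, hM, -, hE⟩ := exc_iffp hr (swr hρ (hSW _ hρ)) hl hε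
    refine ⟨δ, hδ, ?_, (hE δ le_rfl).trans
      (exists_congr fun B => exists_congr fun N => forall_congr' fun n => imp_congr_right fun _ => ?_)⟩
    · intro G D hG hD hD0
      obtain ⟨X, hX⟩ := hM 0 D le_rfl hD0
      refine ⟨X, fun x hx => ?_⟩
      have hGi : POSB.Inv 2 3 r G := hG
      have hdens : PL.dens G = D := tendsto_nhds_unique (POSB.tendsto_dens hstd hGi.tinv) hD
      refine (hX G hGi.tinv hdens.ge δ le_rfl x hx).trans ?_
      unfold num
      have hfin : {n : ℤ | x ≤ n ∧ (n : ℝ) < 2 * x ∧ ∃ t : ℕ, (2 : ℝ) ^ t ≤ x ^ ε ∧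
          ∀ k ∈ W (r 1) δ n, k ∈ G ∧ (T 2 3 r)^[t] k = (T 2 3 r)^[t] n}.Finite := by
        refine (Set.finite_Icc ⌈x⌉ ⌊2 * x⌋).subset ?_
        rintro n ⟨h1, h2, -⟩
        exact ⟨Int.ceil_le.2 h1, Int.le_floor.2 h2.le⟩
      have hsub : WinM (r 1) ε δ G x ⊆ {n : ℤ | x ≤ n ∧ (n : ℝ) < 2 * x ∧ ∃ t : ℕ, (2 : ℝ) ^ t ≤ x ^ ε ∧
          ∀ k ∈ W (r 1) δ n, k ∈ G ∧ (T 2 3 r)^[t] k = (T 2 3 r)^[t] n} := by
        rintro n ⟨h1, h2, t, ht, -, h3⟩
        refine ⟨h1, h2, t, ht, ?_⟩
        rintro k ⟨h, rfl, hh, hle, hd⟩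
        obtain ⟨h4, h5⟩ := h3 h hh hd hle
        refine ⟨h4, ?_⟩
        rw [CO.T_eq (r := r)]
        exact h5.1.symm
      exact_mod_cast Set.ncard_le_ncard hsub hfin
    · constructor
      · rintro ⟨h, t, hh, hd, hle, ht⟩
        exact ⟨n + h, ⟨h, rfl, hh, hle, hd⟩, t, ht⟩
      · rintro ⟨k, ⟨h, rfl, hh, hle, hd⟩, t, ht⟩
        exact ⟨h, t, hh, hd, hle, ht⟩

end Pool.Agent.Helper85.FIN.PowerIntervals
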